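import Pool.Agent.MP5b6e6e.Harm4

set_option autoImplicit false

namespace Pool.Agent.MP5b6e6e

open Set Filter Topology MeasureTheory Complex

/-- principal square root -/
noncomputable def sq (z : ℂ) : ℂ := z ^ ((1:ℂ) / 2)

lemma sq_sq (z : ℂ) : sq z ^ 2 = z := by
  unfold sq
  rw [← Complex.cpow_nat_mul]
  norm_num

lemma sq_re_nonneg (z : ℂ) : 0 ≤ (sq z).re := by
  unfold sq
  by_cases hz : z = 0
  · subst hz; simp
  rw [Complex.cpow_def_of_ne_zero hz, Complex.exp_re]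
  apply mul_nonneg (Real.exp_pos _).le
  apply Real.cos_nonneg_of_neg_pi_div_two_le_of_le
  · have := Complex.neg_pi_lt_arg z
    simp [Complex.log_im]
    linarith
  · have := Complex.arg_le_pi z
    simp [Complex.log_im]
    linarith

lemma sq_bound {e : ℂ} (he : ‖e‖ ≤ 7 / 16) : ‖sq (1 + e) - 1‖ ≤ 1 / 4 := by
  set r := sq (1 + e) with hr
  have h1 : r ^ 2 = 1 + e := sq_sq _
  have h2 : 0 ≤ r.re := sq_re_nonneg _
  have h3 : (r - 1) * (r + 1) = e := by linear_combination h1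
  have h4 : ‖r - 1‖ * ‖r + 1‖ ≤ 7 / 16 := by rw [← norm_mul, h3]; exact he
  have h5 : 2 - ‖r - 1‖ ≤ ‖r + 1‖ := by
    have := norm_sub_le (r + 1) (r - 1)
    have h6 : (r + 1) - (r - 1) = 2 := by ring
    rw [h6] at this
    simp at this
    linarith
  have h6 : ‖r - 1‖ ≤ ‖r + 1‖ := by
    apply le_of_sq_le_sq _ (norm_nonneg _)
    rw [← Complex.normSq_eq_norm_sq, ← Complex.normSq_eq_norm_sq, Complex.normSq_apply,
      Complex.normSq_apply]
    simp
    nlinarith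
  have h7 := norm_nonneg (r - 1)
  by_contra hcon
  push Not at hcon
  nlinarith

lemma sq_re_ge {e : ℂ} (he : ‖e‖ ≤ 7 / 16) : 3 / 4 ≤ (sq (1 + e)).re := by
  have h1 := sq_bound he
  have h2 := Complex.abs_re_le_norm (sq (1 + e) - 1)
  simp at h2
  have h3 := (abs_le.1 (h2.trans h1)).1
  linarith

/-- approximants of the Boettcher function -/
noncomputable def gs : ℕ → ℂ → ℂ
  | 0, _ => 1
  | n + 1, s => sq (gs n (s ^ 2) - (3 / 16) * s ^ 2)

lemma gs_zero (s : ℂ) : gs 0 s = 1 := rfl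
lemma gs_succ (n : ℕ) (s : ℂ) : gs (n + 1) s = sq (gs n (s ^ 2) - (3 / 16) * s ^ 2) := rfl

lemma norm_sq_le {s : ℂ} (hs : ‖s‖ ≤ 1) : ‖s ^ 2‖ ≤ 1 := by
  rw [norm_pow]
  exact pow_le_one₀ (norm_nonneg _) hs

lemma err_bound {s w : ℂ} (hs : ‖s‖ ≤ 1) (hw : ‖w - 1‖ ≤ 1 / 4) :
    ‖w - 1 - (3 / 16) * s ^ 2‖ ≤ 7 / 16 := by
  have h1 := norm_sub_le (w - 1) ((3 / 16) * s ^ 2)
  have h2 : ‖(3 / 16 : ℂ) * s ^ 2‖ ≤ 3 / 16 := by
    rw [norm_mul]
    have h3 : ‖(3 / 16 : ℂ)‖ = 3 / 16 := by simp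
    rw [h3]
    have := norm_sq_le hs
    nlinarith
  linarith

lemma gs_bound (n : ℕ) : ∀ s : ℂ, ‖s‖ ≤ 1 → ‖gs n s - 1‖ ≤ 1 / 4 := by
  induction n with
  | zero => intro s _; simp [gs_zero]
  | succ n ih =>
    intro s hs
    rw [gs_succ]
    have h1 := ih (s ^ 2) (norm_sq_le hs)
    have h2 := err_bound hs h1
    have h3 : gs n (s ^ 2) - 3 / 16 * s ^ 2 = 1 + (gs n (s ^ 2) - 1 - (3 / 16) * s ^ 2) := by ring
    rw [h3]
    exact sq_bound h2

lemma gs_succ_sq (n : ℕ) (s : ℂ) : (gs (n + 1) s) ^ 2 = gs n (s ^ 2) - (3 / 16) * s ^ 2 := by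
  rw [gs_succ, sq_sq]

lemma gs_re (n : ℕ) {s : ℂ} (hs : ‖s‖ ≤ 1) : 3 / 4 ≤ (gs n s).re := by
  have h1 := gs_bound n s hs
  have h2 := Complex.abs_re_le_norm (gs n s - 1)
  simp at h2
  have h3 := (abs_le.1 (h2.trans h1)).1
  linarith

lemma sq_contr {a b : ℂ} (ha : 3 / 4 ≤ a.re) (hb : 3 / 4 ≤ b.re) :
    ‖a - b‖ ≤ (2 / 3) * ‖a ^ 2 - b ^ 2‖ := by
  have h1 : a ^ 2 - b ^ 2 = (a - b) * (a + b) := by ring
  have h2 : 3 / 2 ≤ ‖a + b‖ := by
    have := Complex.re_le_norm (a + b)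
    simp at this
    linarith
  rw [h1, norm_mul]
  have := norm_nonneg (a - b)
  nlinarith

lemma gs_step (n : ℕ) : ∀ s : ℂ, ‖s‖ ≤ 1 → dist (gs n s) (gs (n + 1) s) ≤ (1 / 4) * (2 / 3) ^ n := by
  induction n with
  | zero =>
    intro s hs
    rw [dist_comm, dist_eq_norm, gs_zero]
    simpa using gs_bound 1 s hs
  | succ n ih =>
    intro s hs
    have h1 := sq_contr (gs_re (n + 1) hs) (gs_re (n + 2) hs)
    rw [gs_succ_sq, gs_succ_sq] at h1
    have h2 := ih (s ^ 2) (norm_sq_le hs)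
    rw [dist_eq_norm] at h2 ⊢
    have h3 : gs n (s ^ 2) - 3 / 16 * s ^ 2 - (gs (n + 1) (s ^ 2) - 3 / 16 * s ^ 2)
        = gs n (s ^ 2) - gs (n + 1) (s ^ 2) := by ring
    rw [h3] at h1
    calc _ ≤ _ := h1
      _ ≤ (2 / 3) * ((1 / 4) * (2 / 3) ^ n) := by gcongr
      _ = _ := by ring

noncomputable def G (s : ℂ) : ℂ := limUnder atTop (fun n => gs n s)

lemma gs_tendsto {s : ℂ} (hs : ‖s‖ ≤ 1) : Tendsto (fun n => gs n s) atTop (𝓝 (G s)) := by
  have h1 : CauchySeq (fun n => gs n s) :=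
    cauchySeq_of_le_geometric (2 / 3) (1 / 4) (by norm_num) (fun n => gs_step n s hs)
  exact h1.tendsto_limUnder

lemma gs_dist (n : ℕ) {s : ℂ} (hs : ‖s‖ ≤ 1) : dist (gs n s) (G s) ≤ (1 / 4) * (2 / 3) ^ n / (1 - 2 / 3) :=
  dist_le_of_le_geometric_of_tendsto (2 / 3) (1 / 4) (by norm_num) (fun n => gs_step n s hs)
    (gs_tendsto hs) n

lemma gs_unif : TendstoUniformlyOn gs G atTop (Metric.closedBall 0 1) := by
  rw [Metric.tendstoUniformlyOn_iff]
  intro ε hε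
  have h1 : Tendsto (fun n : ℕ => (1 / 4 : ℝ) * (2 / 3) ^ n / (1 - 2 / 3)) atTop (𝓝 ((1 / 4 : ℝ) * 0 / (1 - 2 / 3))) := by
    apply Tendsto.div_const
    apply Tendsto.const_mul
    exact tendsto_pow_atTop_nhds_zero_of_lt_one (by norm_num) (by norm_num)
  have h2 : (1 / 4 : ℝ) * 0 / (1 - 2 / 3) < ε := by simpa using hε
  filter_upwards [h1.eventually (gt_mem_nhds h2)] with n hn s hs
  rw [mem_closedBall_zero_iff] at hs
  rw [dist_comm]
  exact (gs_dist n hs).trans_lt hn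

lemma slit {s w : ℂ} (hs : ‖s‖ ≤ 1) (hw : ‖w - 1‖ ≤ 1 / 4) :
    w - (3 / 16) * s ^ 2 ∈ Complex.slitPlane := by
  have h2 := err_bound hs hw
  left
  have h3 := Complex.abs_re_le_norm (w - 1 - (3 / 16) * s ^ 2)
  have h4 := (abs_le.1 (h3.trans h2)).1
  have h5 : (w - (3 / 16) * s ^ 2).re = (w - 1 - (3 / 16) * s ^ 2).re + 1 := by
    simp only [Complex.sub_re, Complex.one_re]; ring
  rw [h5]
  linarith

lemma gs_diff (n : ℕ) : DifferentiableOn ℂ (gs n) (Metric.ball 0 1) := by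
  induction n with
  | zero => exact differentiableOn_const _
  | succ n ih =>
    have h1 : DifferentiableOn ℂ (fun s : ℂ => gs n (s ^ 2) - (3 / 16) * s ^ 2) (Metric.ball 0 1) := by
      apply DifferentiableOn.sub
      · apply ih.comp (by fun_prop)
        intro s hs
        rw [mem_ball_zero_iff] at hs ⊢
        rw [norm_pow]
        exact pow_lt_one₀ (norm_nonneg _) hs (by norm_num)
      · fun_prop
    apply h1.cpow_const
    intro s hs
    rw [mem_ball_zero_iff] at hs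
    exact slit hs.le (gs_bound n _ (norm_sq_le hs.le))

lemma gs_cont (n : ℕ) : ContinuousOn (gs n) (Metric.closedBall 0 1) := by
  induction n with
  | zero => exact continuousOn_const
  | succ n ih =>
    have h1 : ContinuousOn (fun s : ℂ => gs n (s ^ 2) - (3 / 16) * s ^ 2) (Metric.closedBall 0 1) := by
      apply ContinuousOn.sub
      · apply ih.comp (by fun_prop)
        intro s hs
        rw [mem_closedBall_zero_iff] at hs ⊢
        exact norm_sq_le hs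
      · fun_prop
    apply h1.cpow continuousOn_const
    intro s hs
    rw [mem_closedBall_zero_iff] at hs
    exact slit hs (gs_bound n _ (norm_sq_le hs))

lemma G_cont : ContinuousOn G (Metric.closedBall 0 1) :=
  gs_unif.continuousOn (Eventually.of_forall gs_cont).frequently

lemma G_diff : DifferentiableOn ℂ G (Metric.ball 0 1) := by
  apply TendstoLocallyUniformlyOn.differentiableOn (φ := atTop) (F := gs)
  · exact (gs_unif.mono Metric.ball_subset_closedBall).tendstoLocallyUniformlyOn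
  · exact Eventually.of_forall gs_diff
  · exact Metric.isOpen_ball

lemma G_bound {s : ℂ} (hs : ‖s‖ ≤ 1) : ‖G s - 1‖ ≤ 1 / 4 := by
  have h1 : Tendsto (fun n => ‖gs n s - 1‖) atTop (𝓝 ‖G s - 1‖) :=
    ((gs_tendsto hs).sub_const 1).norm
  exact le_of_tendsto h1 (Eventually.of_forall fun n => gs_bound n s hs)

lemma G_eq {s : ℂ} (hs : ‖s‖ ≤ 1) : G s ^ 2 = G (s ^ 2) - (3 / 16) * s ^ 2 := by
  have h1 : Tendsto (fun n => gs (n + 1) s ^ 2) atTop (𝓝 (G s ^ 2)) :=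
    (((tendsto_add_atTop_iff_nat 1).2 (gs_tendsto hs))).pow 2
  have h2 : Tendsto (fun n => gs n (s ^ 2) - (3 / 16) * s ^ 2) atTop (𝓝 (G (s ^ 2) - (3 / 16) * s ^ 2)) :=
    (gs_tendsto (norm_sq_le hs)).sub_const _
  have h3 : (fun n => gs (n + 1) s ^ 2) = fun n => gs n (s ^ 2) - (3 / 16) * s ^ 2 := by
    ext n; exact gs_succ_sq n s
  rw [h3] at h1
  exact tendsto_nhds_unique h1 h2

lemma G_one : G 1 = 3 / 4 := by
  have h1 := G_eq (s := 1) (by simp)
  have h2 := G_bound (s := 1) (by simp)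
  have h3 : (G 1 - 3 / 4) * (G 1 - 1 / 4) = 0 := by
    rw [one_pow] at h1
    linear_combination h1
  rcases mul_eq_zero.1 h3 with h | h
  · linear_combination h
  · exfalso
    have h4 : G 1 = 1 / 4 := by linear_combination h
    rw [h4] at h2
    norm_num at h2

end Pool.Agent.MP5b6e6e
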