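import Mathlib

set_option autoImplicit false

namespace Pool.Agent.MP5b6e6e

open Set Filter Topology MeasureTheory Complex

/-- Superharmonicity in the sense of the problem statement. -/
def SupH (Ω : Set ℂ) (u : ℂ → ENNReal) : Prop :=
  LowerSemicontinuousOn u Ω ∧ ∀ a : ℂ, ∀ r : ℝ, 0 < r → Metric.closedBall a r ⊆ Ω →
    ∫⁻ t in Set.Ioc (0:ℝ) (2 * Real.pi), u (a + (r:ℂ) * Complex.exp ((t:ℂ) * Complex.I))
      ≤ ENNReal.ofReal (2 * Real.pi) * u a

lemma circ_eq (a : ℂ) (r t : ℝ) : a + (r:ℂ) * Complex.exp ((t:ℂ) * Complex.I) = circleMap a r t := by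
  simp [circleMap]

/-- mean value property for the real part, in lintegral form. -/
lemma mean_ofReal (k : ℂ → ℂ) (a : ℂ) (r : ℝ) (hr : 0 < r)
    (hk : DiffContOnCl ℂ k (Metric.ball a r)) (hpos : ∀ z ∈ Metric.closedBall a r, 0 ≤ (k z).re) :
    ∫⁻ t in Set.Ioc (0:ℝ) (2 * Real.pi), ENNReal.ofReal (k (circleMap a r t)).re
      = ENNReal.ofReal (2 * Real.pi) * ENNReal.ofReal (k a).re := by
  have hcont : ContinuousOn k (Metric.closedBall a r) := by
    have := hk.2
    rwa [closure_ball a hr.ne'] at this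
  have hmem : ∀ t : ℝ, circleMap a r t ∈ Metric.closedBall a r := fun t =>
    circleMap_mem_closedBall a hr.le t
  have hc : Continuous fun t : ℝ => k (circleMap a r t) :=
    hcont.comp_continuous (continuous_circleMap a r) hmem
  have hcr : Continuous fun t : ℝ => (k (circleMap a r t)).re := Complex.continuous_re.comp hc
  have h2 : (0:ℝ) ≤ 2 * Real.pi := by positivity
  have hcm := DiffContOnCl.circleAverage (f := k) (c := a) (R := r) (by rwa [abs_of_pos hr])
  rw [Real.circleAverage_def] at hcm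
  rw [← ofReal_integral_eq_lintegral_ofReal]
  · rw [← ENNReal.ofReal_mul h2]
    congr 1
    have h3 : ∫ t in (0:ℝ)..2 * Real.pi, k (circleMap a r t) = (2 * Real.pi : ℝ) • k a := by
      rw [← hcm, smul_smul, mul_inv_cancel₀ (by positivity), one_smul]
    rw [← intervalIntegral.integral_of_le h2]
    have h4 : ∫ t in (0:ℝ)..2 * Real.pi, (k (circleMap a r t)).re
        = (∫ t in (0:ℝ)..2 * Real.pi, k (circleMap a r t)).re := by
      have := Complex.reCLM.intervalIntegral_comp_comm (μ := volume) (a := 0) (b := 2 * Real.pi)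
        (f := fun t : ℝ => k (circleMap a r t)) (hc.intervalIntegrable _ _)
      simpa using this
    rw [h4, h3]
    simp
  · exact (hcr.integrableOn_Icc (a := 0) (b := 2 * Real.pi)).mono_set Ioc_subset_Icc_self
  · filter_upwards with t
    exact hpos _ (hmem t)

end Pool.Agent.MP5b6e6e
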