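import Pool.Agent.MP5b6e6e.Harm1

set_option autoImplicit false

namespace Pool.Agent.MP5b6e6e

open Set Filter Topology MeasureTheory Complex

lemma isOpen_hp : IsOpen {z : ℂ | 0 < z.re} := isOpen_lt continuous_const Complex.continuous_re

lemma loc_inv (Φ : ℂ → ℂ) (hΦ : DifferentiableOn ℂ Φ {z | 0 < z.re})
    (hd : ∀ z : ℂ, 0 < z.re → deriv Φ z ≠ 0) (ζ : ℂ) (hζ : 0 < ζ.re) :
    ∃ L : ℂ → ℂ, ∃ ρ : ℝ, 0 < ρ ∧ DifferentiableOn ℂ L (Metric.ball (Φ ζ) ρ) ∧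
      (∀ w ∈ Metric.ball (Φ ζ) ρ, 0 < (L w).re ∧ Φ (L w) = w) ∧ L (Φ ζ) = ζ ∧
      ∀ᶠ z in 𝓝 ζ, L (Φ z) = z := by
  have han : AnalyticOnNhd ℂ Φ {z | 0 < z.re} := hΦ.analyticOnNhd isOpen_hp
  have hst : ∀ z : ℂ, 0 < z.re → HasStrictDerivAt Φ (deriv Φ z) z := fun z hz =>
    (han z hz).hasStrictDerivAt
  set L := (hst ζ hζ).localInverse Φ _ ζ (hd ζ hζ) with hL
  have h1 : ∀ᶠ z in 𝓝 ζ, L (Φ z) = z := (hst ζ hζ).eventually_left_inverse (hd ζ hζ)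
  have h2 : ∀ᶠ w in 𝓝 (Φ ζ), Φ (L w) = w := (hst ζ hζ).eventually_right_inverse (hd ζ hζ)
  have hLζ : L (Φ ζ) = ζ := h1.self_of_nhds
  have hLc : ContinuousAt L (Φ ζ) :=
    ((hst ζ hζ).to_localInverse (hd ζ hζ)).hasDerivAt.continuousAt
  have h3 : ∀ᶠ z in 𝓝 ζ, 0 < z.re ∧ ∀ᶠ y in 𝓝 z, L (Φ y) = y :=
    (show ∀ᶠ z in 𝓝 ζ, 0 < z.re from isOpen_hp.mem_nhds hζ).and (eventually_eventually_nhds.2 h1)
  have h4 : ∀ᶠ w in 𝓝 (Φ ζ), 0 < (L w).re ∧ ∀ᶠ y in 𝓝 (L w), L (Φ y) = y := by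
    have := hLc.tendsto
    rw [hLζ] at this
    exact this.eventually h3
  obtain ⟨ρ, hρ, hb⟩ := Metric.eventually_nhds_iff_ball.1 (h2.and h4)
  refine ⟨L, ρ, hρ, ?_, ?_, hLζ, h1⟩
  · intro w hw
    obtain ⟨ha, hb', hc⟩ := hb w hw
    have h5 := (hst (L w) hb').to_local_left_inverse (hd _ hb') hc
    rw [ha] at h5
    exact h5.hasDerivAt.differentiableAt.differentiableWithinAt
  · intro w hw
    obtain ⟨ha, hb', hc⟩ := hb w hw
    exact ⟨hb', ha⟩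

/-- local minimum principle -/
lemma loc_min (Φ : ℂ → ℂ) (hΦ : DifferentiableOn ℂ Φ {z | 0 < z.re})
    (hd : ∀ z : ℂ, 0 < z.re → deriv Φ z ≠ 0)
    (u : ℂ → ENNReal) (hu : SupH (Φ '' {z | 0 < z.re}) u)
    (Q : ℂ → ℂ) (hQ : DifferentiableOn ℂ Q {z | 0 < z.re}) (hQ0 : ∀ z : ℂ, 0 < z.re → 0 ≤ (Q z).re)
    (ζ : ℂ) (hζ : 0 < ζ.re) (hfin : u (Φ ζ) ≠ ⊤)
    (hmin : ∀ z : ℂ, 0 < z.re → u (Φ ζ) + ENNReal.ofReal (Q ζ).re ≤ u (Φ z) + ENNReal.ofReal (Q z).re) :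
    ∀ᶠ z in 𝓝 ζ, u (Φ z) + ENNReal.ofReal (Q z).re ≤ u (Φ ζ) + ENNReal.ofReal (Q ζ).re := by
  obtain ⟨L, ρ, hρ, hLd, hLm, hLζ, hLe⟩ := loc_inv Φ hΦ hd ζ hζ
  have hcΦ : ContinuousAt Φ ζ := (hΦ ζ hζ).differentiableAt (isOpen_hp.mem_nhds hζ) |>.continuousAt
  have hnear : ∀ᶠ z in 𝓝 ζ, Φ z ∈ Metric.ball (Φ ζ) ρ :=
    hcΦ.eventually (Metric.ball_mem_nhds _ hρ)
  filter_upwards [hnear, hLe] with z hz hLz
  by_cases hzz : z = ζ
  · subst hzz; exact le_rfl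
  have hne : Φ z ≠ Φ ζ := by
    intro h
    apply hzz
    rw [← hLz, h, hLζ]
  -- radius
  set r : ℝ := ‖Φ z - Φ ζ‖ with hr
  have hr0 : 0 < r := norm_pos_iff.2 (sub_ne_zero.2 hne)
  have hrρ : r < ρ := by rwa [Metric.mem_ball, dist_eq_norm] at hz
  have hsub : Metric.closedBall (Φ ζ) r ⊆ Metric.ball (Φ ζ) ρ := Metric.closedBall_subset_ball hrρ
  have hballΩ : Metric.ball (Φ ζ) ρ ⊆ Φ '' {z | 0 < z.re} := by
    intro w hw
    exact ⟨L w, (hLm w hw).1, (hLm w hw).2⟩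
  have hcb : Metric.closedBall (Φ ζ) r ⊆ Φ '' {z | 0 < z.re} := hsub.trans hballΩ
  -- the function on the circle
  set k : ℂ → ℂ := fun w => Q (L w) with hk
  have hkd : DifferentiableOn ℂ k (Metric.ball (Φ ζ) ρ) := by
    apply hQ.comp hLd
    intro w hw
    exact (hLm w hw).1
  have hkcl : DiffContOnCl ℂ k (Metric.ball (Φ ζ) r) := by
    refine ⟨hkd.mono (Metric.ball_subset_ball hrρ.le), ?_⟩
    rw [closure_ball _ hr0.ne']
    exact hkd.continuousOn.mono hsub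
  have hmean := mean_ofReal k (Φ ζ) r hr0 hkcl
    (fun w hw => hQ0 _ (hLm w (hsub hw)).1)
  have hmem : ∀ t : ℝ, circleMap (Φ ζ) r t ∈ Metric.closedBall (Φ ζ) r := fun t =>
    circleMap_mem_closedBall _ hr0.le t
  have hulsc : LowerSemicontinuous fun t : ℝ => u (circleMap (Φ ζ) r t) := by
    intro t
    have h1 := hu.1 (circleMap (Φ ζ) r t) (hcb (hmem t))
    intro y hy
    have h2 := h1 y hy
    have h3 : Tendsto (fun t : ℝ => circleMap (Φ ζ) r t) (𝓝 t)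
        (𝓝[Φ '' {z | 0 < z.re}] (circleMap (Φ ζ) r t)) := by
      rw [tendsto_nhdsWithin_iff]
      exact ⟨(continuous_circleMap _ _).continuousAt, Eventually.of_forall fun s => hcb (hmem s)⟩
    exact h3.eventually h2
  have hkc : Continuous fun t : ℝ => ENNReal.ofReal (k (circleMap (Φ ζ) r t)).re := by
    apply ENNReal.continuous_ofReal.comp
    apply Complex.continuous_re.comp
    exact (hkd.continuousOn.mono hsub).comp_continuous (continuous_circleMap _ _) hmem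
  set V : ℝ → ENNReal := fun t => u (circleMap (Φ ζ) r t) + ENNReal.ofReal (k (circleMap (Φ ζ) r t)).re
    with hV
  have hVlsc : LowerSemicontinuous V := hulsc.add hkc.lowerSemicontinuous
  set M : ENNReal := u (Φ ζ) + ENNReal.ofReal (Q ζ).re with hM
  have hMfin : M ≠ ⊤ := ENNReal.add_ne_top.2 ⟨hfin, ENNReal.ofReal_ne_top⟩
  have hVM : ∀ t, M ≤ V t := by
    intro t
    have h1 := hLm _ (hsub (hmem t))
    have h2 := hmin _ h1.1
    rw [h1.2] at h2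
    exact h2
  have hint : ∫⁻ t in Set.Ioc (0:ℝ) (2 * Real.pi), V t ≤ ENNReal.ofReal (2 * Real.pi) * M := by
    rw [hV, lintegral_add_right _ hkc.measurable, hmean, hM, mul_add]
    have h1 := hu.2 (Φ ζ) r hr0 hcb
    simp only [circ_eq] at h1
    have h2 : k (Φ ζ) = Q ζ := by simp only [hk, hLζ]
    rw [h2]
    gcongr
  -- a.e. equality
  have hae : (fun _ => M) =ᵐ[volume.restrict (Set.Ioc (0:ℝ) (2 * Real.pi))] V := by
    apply ae_eq_of_ae_le_of_lintegral_le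
    · filter_upwards with t using hVM t
    · rw [lintegral_const, Measure.restrict_apply MeasurableSet.univ, univ_inter, Real.volume_Ioc]
      exact ENNReal.mul_ne_top hMfin ENNReal.ofReal_ne_top
    · exact hVlsc.measurable.aemeasurable
    · rw [lintegral_const, Measure.restrict_apply MeasurableSet.univ, univ_inter, Real.volume_Ioc,
        sub_zero, mul_comm M]
      exact hint
  -- everywhere
  have hall : ∀ t ∈ Set.Ioc (0:ℝ) (2 * Real.pi), V t ≤ M := by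
    intro t ht
    by_contra hcon
    push Not at hcon
    have hopen : IsOpen {s | M < V s} := hVlsc.isOpen_preimage M
    have h1 : ∀ᶠ s in 𝓝 t, M < V s := hopen.mem_nhds hcon
    have h2 : ∃ s, s ∈ Set.Ioo (0:ℝ) (2 * Real.pi) ∧ M < V s := by
      have h3 : ∀ᶠ s in 𝓝[<] t, M < V s := nhdsWithin_le_nhds h1
      have h4 : ∀ᶠ s in 𝓝[<] t, s ∈ Set.Ioo 0 t := Ioo_mem_nhdsLT ht.1
      obtain ⟨s, hs1, hs2⟩ := (h3.and h4).exists
      exact ⟨s, ⟨hs2.1, hs2.2.trans_le ht.2⟩, hs1⟩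
    obtain ⟨s, hs, hsV⟩ := h2
    have h5 : IsOpen ({s | M < V s} ∩ Set.Ioo (0:ℝ) (2 * Real.pi)) := hopen.inter isOpen_Ioo
    have h6 : 0 < volume ({s | M < V s} ∩ Set.Ioo (0:ℝ) (2 * Real.pi)) :=
      h5.measure_pos volume ⟨s, hsV, hs⟩
    have h7 : volume.restrict (Set.Ioc (0:ℝ) (2 * Real.pi)) {s | ¬ (M = V s)} = 0 := hae
    have h8 : volume ({s | M < V s} ∩ Set.Ioo (0:ℝ) (2 * Real.pi)) ≤
        volume.restrict (Set.Ioc (0:ℝ) (2 * Real.pi)) {s | ¬ (M = V s)} := by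
      rw [Measure.restrict_apply']
      · apply measure_mono
        intro s hs'
        exact ⟨hs'.1.ne, Ioo_subset_Ioc_self hs'.2⟩
      · exact measurableSet_Ioc
    rw [h7] at h8
    exact absurd h6 (not_lt.2 h8)
  -- find the angle of z
  obtain ⟨t, ht, hcirc⟩ : ∃ t ∈ Set.Ioc (0:ℝ) (2 * Real.pi), circleMap (Φ ζ) r t = Φ z := by
    have hz1 : Φ z ∈ Metric.sphere (Φ ζ) |r| := by
      rw [mem_sphere_iff_norm, abs_of_pos hr0]
    rw [← image_circleMap_Ioc] at hz1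
    obtain ⟨t, ht, h⟩ := hz1
    exact ⟨t, ht, h⟩
  have h9 := hall t ht
  simp only [hV, hk, hcirc, hLz] at h9
  exact h9

end Pool.Agent.MP5b6e6e
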