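import Pool.Agent.MP5b6e6e.Harm2

set_option autoImplicit false

namespace Pool.Agent.MP5b6e6e

open Set Filter Topology MeasureTheory Complex

/-- Cauchy transform of a compact subset of the imaginary axis. -/
noncomputable def Pc (K : Set ℝ) (ζ : ℂ) : ℂ := ∫ t in K, (ζ - (t:ℂ) * Complex.I)⁻¹

lemma sub_ne {ζ : ℂ} (hζ : 0 < ζ.re) (t : ℝ) : ζ - (t:ℂ) * Complex.I ≠ 0 := by
  intro h
  have := congrArg Complex.re h
  simp at this
  linarith

lemma re_le_norm_sub (ζ : ℂ) (t : ℝ) : ζ.re ≤ ‖ζ - (t:ℂ) * Complex.I‖ := by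
  have := Complex.re_le_norm (ζ - (t:ℂ) * Complex.I)
  simpa using this

lemma cont_inv {ζ : ℂ} (hζ : 0 < ζ.re) : Continuous fun t : ℝ => (ζ - (t:ℂ) * Complex.I)⁻¹ := by
  apply Continuous.inv₀ (by fun_prop)
  intro t
  exact sub_ne hζ t

lemma int_inv {K : Set ℝ} (hK : IsCompact K) {ζ : ℂ} (hζ : 0 < ζ.re) :
    IntegrableOn (fun t : ℝ => (ζ - (t:ℂ) * Complex.I)⁻¹) K :=
  (cont_inv hζ).continuousOn.integrableOn_compact hK

lemma Pc_diff {K : Set ℝ} (hK : IsCompact K) : DifferentiableOn ℂ (Pc K) {z | 0 < z.re} := by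
  intro ζ hζ
  have hζ' : 0 < ζ.re := hζ
  have hs : {z : ℂ | ζ.re / 2 < z.re} ∈ 𝓝 ζ := by
    apply IsOpen.mem_nhds (isOpen_lt continuous_const Complex.continuous_re)
    show ζ.re / 2 < ζ.re
    linarith
  have key := hasDerivAt_integral_of_dominated_loc_of_deriv_le (𝕜 := ℂ) (μ := volume.restrict K)
    (F := fun (z : ℂ) (t : ℝ) => (z - (t:ℂ) * Complex.I)⁻¹)
    (F' := fun (z : ℂ) (t : ℝ) => -((z - (t:ℂ) * Complex.I) ^ 2)⁻¹)
    (bound := fun _ => ((ζ.re / 2) ^ 2)⁻¹) (x₀ := ζ) (s := {z : ℂ | ζ.re / 2 < z.re}) hs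
    ?_ ?_ ?_ ?_ ?_ ?_
  · exact key.2.differentiableAt.differentiableWithinAt
  · filter_upwards [hs] with z hz
    have hz' : 0 < z.re := lt_trans (by linarith) hz
    exact (cont_inv hz').aestronglyMeasurable
  · exact int_inv hK hζ'
  · have : Continuous fun t : ℝ => -((ζ - (t:ℂ) * Complex.I) ^ 2)⁻¹ := by
      apply Continuous.neg
      apply Continuous.inv₀ (by fun_prop)
      intro t
      exact pow_ne_zero _ (sub_ne hζ' t)
    exact this.aestronglyMeasurable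
  · filter_upwards with t z hz
    rw [norm_neg, norm_inv, norm_pow]
    have h1 : ζ.re / 2 ≤ ‖z - (t:ℂ) * Complex.I‖ := le_trans (le_of_lt hz) (re_le_norm_sub z t)
    gcongr
  · exact (continuousOn_const.integrableOn_compact hK)
  · filter_upwards with t z hz
    have hz' : 0 < z.re := lt_trans (by linarith) hz
    have h1 := (((hasDerivAt_id z).sub_const ((t:ℂ) * Complex.I)).inv (sub_ne hz' t))
    have h2 : -((z - (t:ℂ) * Complex.I) ^ 2)⁻¹ = -1 / (id z - (t:ℂ) * Complex.I) ^ 2 := by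
      rw [neg_div, one_div]
      rfl
    show HasDerivAt (fun z : ℂ => (z - (t:ℂ) * Complex.I)⁻¹) (-((z - (t:ℂ) * Complex.I) ^ 2)⁻¹) z
    rw [h2]
    exact h1

lemma Pc_re {K : Set ℝ} (hK : IsCompact K) {ζ : ℂ} (hζ : 0 < ζ.re) :
    (Pc K ζ).re = ∫ t in K, ζ.re / (ζ.re ^ 2 + (ζ.im - t) ^ 2) := by
  have h1 : (Pc K ζ).re = ∫ t in K, ((ζ - (t:ℂ) * Complex.I)⁻¹).re := by
    have := Complex.reCLM.integral_comp_comm (int_inv hK hζ)
    simpa [Pc] using this.symm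
  rw [h1]
  congr 1
  ext t
  rw [Complex.inv_re, Complex.normSq_apply]
  simp
  ring_nf

lemma cauchy_eq {x : ℝ} (hx : 0 < x) (y t : ℝ) :
    x / (x ^ 2 + (y - t) ^ 2) = x⁻¹ * (1 + ((t - y) / x) ^ 2)⁻¹ := by
  have h1 : 0 < x ^ 2 + (y - t) ^ 2 := by positivity
  have h2 : 0 < 1 + ((t - y) / x) ^ 2 := by positivity
  field_simp
  ring

lemma cauchy_int {x : ℝ} (hx : 0 < x) (y : ℝ) :
    Integrable (fun t : ℝ => x / (x ^ 2 + (y - t) ^ 2)) ∧
    ∫ t : ℝ, x / (x ^ 2 + (y - t) ^ 2) = Real.pi := by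
  have h0 : (fun t : ℝ => x / (x ^ 2 + (y - t) ^ 2)) = fun t => x⁻¹ * (1 + ((t - y) / x) ^ 2)⁻¹ := by
    ext t; exact cauchy_eq hx y t
  rw [h0]
  have hi := integrable_inv_one_add_sq
  have hi2 : Integrable fun t : ℝ => (1 + (t / x) ^ 2)⁻¹ := by
    have := hi.comp_div hx.ne'
    simpa using this
  constructor
  · apply Integrable.const_mul
    exact hi2.comp_sub_right y
  · rw [integral_const_mul]
    have h1 : ∫ t : ℝ, (1 + ((t - y) / x) ^ 2)⁻¹ = ∫ t : ℝ, (1 + (t / x) ^ 2)⁻¹ :=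
      integral_sub_right_eq_self (fun t : ℝ => (1 + (t / x) ^ 2)⁻¹) y
    rw [h1]
    have h2 : ∫ t : ℝ, (1 + (t / x) ^ 2)⁻¹ = |x| • ∫ t : ℝ, (1 + t ^ 2)⁻¹ :=
      Measure.integral_comp_div (fun t : ℝ => (1 + t ^ 2)⁻¹) x
    rw [h2, integral_univ_inv_one_add_sq, abs_of_pos hx, smul_eq_mul]
    field_simp

lemma Pc_re_le {K : Set ℝ} (hK : IsCompact K) {ζ : ℂ} (hζ : 0 < ζ.re) :
    (Pc K ζ).re ≤ Real.pi := by
  rw [Pc_re hK hζ, ← (cauchy_int hζ ζ.im).2]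
  apply setIntegral_le_integral (cauchy_int hζ ζ.im).1
  filter_upwards with t
  show 0 ≤ _
  positivity

lemma Pc_re_pos {K : Set ℝ} (hK : IsCompact K) (hK0 : 0 < volume K) {ζ : ℂ} (hζ : 0 < ζ.re) :
    0 < (Pc K ζ).re := by
  rw [Pc_re hK hζ]
  rw [setIntegral_pos_iff_support_of_nonneg_ae]
  · have : Function.support (fun t : ℝ => ζ.re / (ζ.re ^ 2 + (ζ.im - t) ^ 2)) = univ := by
      ext t
      simp only [Function.mem_support, mem_univ, iff_true]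
      positivity
    rw [this, univ_inter]
    exact hK0
  · filter_upwards with t
    show 0 ≤ _
    positivity
  · exact (cauchy_int hζ ζ.im).1.integrableOn

lemma normsq_sub (ζ : ℂ) (t : ℝ) :
    ‖ζ - (t:ℂ) * Complex.I‖ ^ 2 = ζ.re ^ 2 + (ζ.im - t) ^ 2 := by
  rw [← Complex.normSq_eq_norm_sq, Complex.normSq_apply]
  simp
  ring

lemma Pc_re_decay {K : Set ℝ} (hK : IsCompact K) {ζ : ℂ} (hζ : 0 < ζ.re) {D : ℝ} (hD : 0 < D)
    (h : ∀ t ∈ K, D ≤ ‖ζ - (t:ℂ) * Complex.I‖) :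
    (Pc K ζ).re ≤ (volume K).toReal * (ζ.re / D ^ 2) := by
  rw [Pc_re hK hζ]
  have h1 : ∫ t in K, ζ.re / (ζ.re ^ 2 + (ζ.im - t) ^ 2) ≤ ∫ t in K, ζ.re / D ^ 2 := by
    apply setIntegral_mono_on
    · exact (cauchy_int hζ ζ.im).1.integrableOn
    · exact (continuousOn_const.integrableOn_compact hK)
    · exact hK.measurableSet
    · intro t ht
      rw [← normsq_sub]
      have := h t ht
      gcongr
  refine h1.trans ?_
  rw [setIntegral_const, smul_eq_mul]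
  rfl

end Pool.Agent.MP5b6e6e
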