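import Pool.Agent.MP5b6e6e.Harm3

set_option autoImplicit false

namespace Pool.Agent.MP5b6e6e

open Set Filter Topology MeasureTheory Complex

section
variable (Φ : ℂ → ℂ) (K : Set ℝ) (u : ℂ → ENNReal)

/-- the positive harmonic function 1 - h. -/
noncomputable def qc (z : ℂ) : ℝ := 1 - (Pc K z).re / Real.pi

noncomputable def vc (z : ℂ) : ENNReal := u (Φ z) + ENNReal.ofReal (qc K z)

lemma qc_eq (z : ℂ) : (1 - Pc K z / (Real.pi : ℂ)).re = qc K z := by
  unfold qc
  rw [Complex.sub_re, Complex.one_re, Complex.div_ofReal_re]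

lemma qc_nonneg (hK : IsCompact K) {z : ℂ} (hz : 0 < z.re) : 0 ≤ qc K z := by
  unfold qc
  have h1 := Pc_re_le hK hz
  have h2 : (Pc K z).re / Real.pi ≤ 1 := by
    rw [div_le_one Real.pi_pos]; exact h1
  linarith

lemma qc_cont (hK : IsCompact K) : ContinuousOn (qc K) {z | 0 < z.re} := by
  unfold qc
  apply ContinuousOn.sub continuousOn_const
  apply ContinuousOn.div_const
  exact Complex.continuous_re.comp_continuousOn (Pc_diff hK).continuousOn

lemma vc_lsc (hK : IsCompact K) (hΦ : ContinuousOn Φ {z | 0 ≤ z.re})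
    (hu : SupH (Φ '' {z | 0 < z.re}) u) : LowerSemicontinuousOn (vc Φ K u) {z | 0 < z.re} := by
  have h1 : LowerSemicontinuousOn (fun z => u (Φ z)) {z | 0 < z.re} := by
    intro z hz y hy
    have h2 := hu.1 (Φ z) ⟨z, hz, rfl⟩ y hy
    have h3 : Tendsto Φ (𝓝[{z | 0 < z.re}] z) (𝓝[Φ '' {z | 0 < z.re}] (Φ z)) := by
      rw [tendsto_nhdsWithin_iff]
      refine ⟨(hΦ z (show 0 ≤ z.re from le_of_lt hz)).mono_left (nhdsWithin_mono _ fun w (hw : 0 < w.re) => (le_of_lt hw : 0 ≤ w.re)), ?_⟩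
      filter_upwards [self_mem_nhdsWithin] with w hw
      exact ⟨w, hw, rfl⟩
    exact h3.eventually h2
  have h4 : ContinuousOn (fun z => ENNReal.ofReal (qc K z)) {z | 0 < z.re} :=
    ENNReal.continuous_ofReal.comp_continuousOn (qc_cont K hK)
  exact h1.add h4.lowerSemicontinuousOn

lemma isClosed_A (hK : IsCompact K) (hΦ : ContinuousOn Φ {z | 0 ≤ z.re})
    (hu : SupH (Φ '' {z | 0 < z.re}) u)
    (hlim : ∀ t ∈ K, 1 ≤ Filter.liminf u (𝓝[Φ '' {z | 0 < z.re}] (Φ ((t:ℂ) * Complex.I))))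
    (c : ENNReal) (hc : c < 1) : IsClosed {z : ℂ | 0 < z.re ∧ vc Φ K u z ≤ c} := by
  rw [← isOpen_compl_iff, isOpen_iff_mem_nhds]
  intro ζ hζ
  have hζ' : ¬ (0 < ζ.re ∧ vc Φ K u ζ ≤ c) := hζ
  show ∀ᶠ z in 𝓝 ζ, ¬ (0 < z.re ∧ vc Φ K u z ≤ c)
  rcases lt_trichotomy ζ.re 0 with h | h | h
  · have : ∀ᶠ z : ℂ in 𝓝 ζ, z.re < 0 :=
      (isOpen_lt Complex.continuous_re continuous_const).mem_nhds h
    filter_upwards [this] with z hz hz2
    linarith [hz2.1]
  · -- boundary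
    have hζe : ζ = (ζ.im : ℂ) * Complex.I := by
      apply Complex.ext <;> simp [h]
    by_cases ht : ζ.im ∈ K
    · have h1 := hlim _ ht
      rw [← hζe] at h1
      have h2 : ∀ᶠ w in 𝓝[Φ '' {z | 0 < z.re}] (Φ ζ), c < u w :=
        eventually_lt_of_lt_liminf (lt_of_lt_of_le hc h1)
      have h3 : Tendsto Φ (𝓝[{z | 0 < z.re}] ζ) (𝓝[Φ '' {z | 0 < z.re}] (Φ ζ)) := by
        rw [tendsto_nhdsWithin_iff]
        refine ⟨(hΦ ζ (le_of_eq h.symm)).mono_left (nhdsWithin_mono _ fun w (hw : 0 < w.re) => (le_of_lt hw : 0 ≤ w.re)), ?_⟩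
        filter_upwards [self_mem_nhdsWithin] with w hw
        exact ⟨w, hw, rfl⟩
      have h4 := h3.eventually h2
      rw [eventually_nhdsWithin_iff] at h4
      filter_upwards [h4] with z hz hz2
      have h5 := hz hz2.1
      have h6 : u (Φ z) ≤ vc Φ K u z := le_self_add
      exact absurd (lt_of_lt_of_le h5 (h6.trans hz2.2)) (lt_irrefl _)
    · -- away from K
      obtain ⟨D, hD, hDb⟩ : ∃ D : ℝ, 0 < D ∧ ∀ s ∈ K, 2 * D ≤ |ζ.im - s| := by
        have h1 : Kᶜ ∈ 𝓝 ζ.im := hK.isClosed.isOpen_compl.mem_nhds ht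
        obtain ⟨ε, hε, hb⟩ := Metric.mem_nhds_iff.1 h1
        refine ⟨ε / 2, by positivity, fun s hs => ?_⟩
        by_contra hcon
        push Not at hcon
        have : s ∈ Metric.ball ζ.im ε := by
          rw [Metric.mem_ball, dist_comm, Real.dist_eq]
          linarith
        exact hb this hs
      have h2 : Tendsto (fun z : ℂ => 1 - (volume K).toReal * (z.re / D ^ 2) / Real.pi) (𝓝 ζ)
          (𝓝 (1 - (volume K).toReal * (ζ.re / D ^ 2) / Real.pi)) := by
        apply Continuous.tendsto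
        have := Complex.continuous_re
        fun_prop
      rw [h] at h2
      have hcr : c.toReal < 1 := by
        have := (ENNReal.toReal_lt_toReal (ne_top_of_lt hc) ENNReal.one_ne_top).2 hc
        simpa using this
      have h3 : ∀ᶠ z : ℂ in 𝓝 ζ, c.toReal < 1 - (volume K).toReal * (z.re / D ^ 2) / Real.pi := by
        apply h2.eventually
        apply lt_mem_nhds
        simpa using hcr
      have h4 : ∀ᶠ z : ℂ in 𝓝 ζ, z ∈ Metric.ball ζ D := Metric.ball_mem_nhds _ hD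
      filter_upwards [h3, h4] with z hz1 hz2 hz3
      have h5 : ∀ s ∈ K, D ≤ ‖z - (s:ℂ) * Complex.I‖ := by
        intro s hs
        have h6 : 2 * D ≤ ‖ζ - (s:ℂ) * Complex.I‖ := by
          have h7 := hDb s hs
          have h8 := Complex.abs_im_le_norm (ζ - (s:ℂ) * Complex.I)
          simp at h8
          linarith
        have h7 : ‖ζ - (s:ℂ) * Complex.I‖ ≤ ‖z - ζ‖ + ‖z - (s:ℂ) * Complex.I‖ := by
          have : ζ - (s:ℂ) * Complex.I = (ζ - z) + (z - (s:ℂ) * Complex.I) := by ring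
          calc ‖ζ - (s:ℂ) * Complex.I‖ = ‖(ζ - z) + (z - (s:ℂ) * Complex.I)‖ := by rw [← this]
            _ ≤ ‖ζ - z‖ + ‖z - (s:ℂ) * Complex.I‖ := norm_add_le _ _
            _ = ‖z - ζ‖ + ‖z - (s:ℂ) * Complex.I‖ := by rw [norm_sub_rev]
        rw [Metric.mem_ball, dist_eq_norm] at hz2
        linarith
      have h6 := Pc_re_decay hK hz3.1 hD h5
      have h7 : c.toReal < qc K z := by
        unfold qc
        have : (Pc K z).re / Real.pi ≤ (volume K).toReal * (z.re / D ^ 2) / Real.pi := by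
          gcongr
        linarith
      have h8 : c < ENNReal.ofReal (qc K z) := by
        rw [ENNReal.lt_ofReal_iff_toReal_lt (ne_top_of_lt hc)]
        exact h7
      have h9 : ENNReal.ofReal (qc K z) ≤ vc Φ K u z := le_add_self
      exact absurd (lt_of_lt_of_le h8 (h9.trans hz3.2)) (lt_irrefl _)
  · have h1 : c < vc Φ K u ζ := by
      by_contra hcon
      exact hζ' ⟨h, not_lt.1 hcon⟩
    have h2 := vc_lsc Φ K u hK hΦ hu ζ h c h1
    have h3 : 𝓝[{z : ℂ | 0 < z.re}] ζ = 𝓝 ζ := isOpen_hp.nhdsWithin_eq h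
    rw [h3] at h2
    filter_upwards [h2] with z hz hz2
    exact absurd (lt_of_lt_of_le hz hz2.2) (lt_irrefl _)

lemma bdd_A (hK : IsCompact K)
    (c : ENNReal) (hc : c < 1) : Bornology.IsBounded {z : ℂ | 0 < z.re ∧ vc Φ K u z ≤ c} := by
  obtain ⟨M, hM⟩ := hK.isBounded.subset_closedBall (0:ℝ)
  have hcr : c.toReal < 1 := by
    have := (ENNReal.toReal_lt_toReal (ne_top_of_lt hc) ENNReal.one_ne_top).2 hc
    simpa using this
  set W : ℝ := (volume K).toReal with hW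
  have hW0 : 0 ≤ W := ENNReal.toReal_nonneg
  set R : ℝ := 2 * |M| + 4 * W / (Real.pi * (1 - c.toReal)) + 1 with hR
  have hpi := Real.pi_pos
  have h1c : 0 < 1 - c.toReal := by linarith
  have hx0 : 0 ≤ 4 * W / (Real.pi * (1 - c.toReal)) := by positivity
  apply (Metric.isBounded_closedBall (x := (0:ℂ)) (r := R)).subset
  intro z hz
  by_contra hcon
  rw [mem_closedBall_zero_iff, not_le] at hcon
  have hz1 : 2 * |M| < ‖z‖ := by linarith
  have hz2 : 4 * W / (Real.pi * (1 - c.toReal)) < ‖z‖ := by linarith [abs_nonneg M]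
  have hzpos : 0 < ‖z‖ := by linarith [abs_nonneg M]
  have h5 : ∀ s ∈ K, ‖z‖ / 2 ≤ ‖z - (s:ℂ) * Complex.I‖ := by
    intro s hs
    have h6 : |s| ≤ |M| := by
      have := hM hs
      rw [mem_closedBall_zero_iff, Real.norm_eq_abs] at this
      exact this.trans (le_abs_self M)
    have h7 : ‖z‖ ≤ ‖z - (s:ℂ) * Complex.I‖ + ‖(s:ℂ) * Complex.I‖ := by
      have := norm_add_le (z - (s:ℂ) * Complex.I) ((s:ℂ) * Complex.I)
      simpa using this
    have h8 : ‖(s:ℂ) * Complex.I‖ = |s| := by simp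
    rw [h8] at h7
    linarith
  have h6 := Pc_re_decay hK hz.1 (by positivity : 0 < ‖z‖ / 2) h5
  have h7 : (Pc K z).re ≤ 4 * W / ‖z‖ := by
    refine h6.trans ?_
    have h8 : z.re / (‖z‖ / 2) ^ 2 ≤ 4 / ‖z‖ := by
      rw [div_le_div_iff₀ (by positivity) hzpos]
      have := Complex.re_le_norm z
      nlinarith
    calc W * (z.re / (‖z‖ / 2) ^ 2) ≤ W * (4 / ‖z‖) := by gcongr
      _ = 4 * W / ‖z‖ := by ring
  have h8 : c.toReal < qc K z := by
    unfold qc
    have h9 : (Pc K z).re / Real.pi < 1 - c.toReal := by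
      rw [div_lt_iff₀ hpi]
      refine h7.trans_lt ?_
      rw [div_lt_iff₀ hzpos]
      rw [div_lt_iff₀ (by positivity)] at hz2
      linarith
    linarith
  have h8 : c < ENNReal.ofReal (qc K z) := by
    rw [ENNReal.lt_ofReal_iff_toReal_lt (ne_top_of_lt hc)]
    exact h8
  have h9 : ENNReal.ofReal (qc K z) ≤ vc Φ K u z := le_add_self
  exact absurd (lt_of_lt_of_le h8 (h9.trans hz.2)) (lt_irrefl _)

/-- lower bound for superharmonic functions on the image of the half plane -/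
theorem harm_lower (hK : IsCompact K) (hdiff : DifferentiableOn ℂ Φ {z | 0 < z.re})
    (hd : ∀ z : ℂ, 0 < z.re → deriv Φ z ≠ 0) (hΦ : ContinuousOn Φ {z | 0 ≤ z.re})
    (hu : SupH (Φ '' {z | 0 < z.re}) u)
    (hlim : ∀ t ∈ K, 1 ≤ Filter.liminf u (𝓝[Φ '' {z | 0 < z.re}] (Φ ((t:ℂ) * Complex.I)))) :
    ENNReal.ofReal ((Pc K 1).re / Real.pi) ≤ u (Φ 1) := by
  by_contra hcon
  push Not at hcon
  have h10 : (0:ℝ) < (1:ℂ).re := by simp
  have hq1 : 0 ≤ qc K 1 := qc_nonneg K hK h10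
  have hp1 : 0 < (Pc K 1).re / Real.pi := by
    by_contra h
    push Not at h
    rw [ENNReal.ofReal_of_nonpos h] at hcon
    exact absurd hcon (by simp)
  have hv1 : vc Φ K u 1 < 1 := by
    unfold vc
    have h1 : u (Φ 1) + ENNReal.ofReal (qc K 1) <
        ENNReal.ofReal ((Pc K 1).re / Real.pi) + ENNReal.ofReal (qc K 1) :=
      ENNReal.add_lt_add_right ENNReal.ofReal_ne_top hcon
    refine h1.trans_le ?_
    rw [← ENNReal.ofReal_add hp1.le hq1]
    unfold qc
    simp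
  -- the minimum
  set A : Set ℂ := {z : ℂ | 0 < z.re ∧ vc Φ K u z ≤ vc Φ K u 1} with hA
  have hAc : IsCompact A := Metric.isCompact_of_isClosed_isBounded
    (isClosed_A Φ K u hK hΦ hu hlim _ hv1) (bdd_A Φ K u hK _ hv1)
  have h1A : (1:ℂ) ∈ A := ⟨h10, le_rfl⟩
  obtain ⟨ζ, hζA, hζmin⟩ := LowerSemicontinuousOn.exists_isMinOn ⟨1, h1A⟩ hAc
    ((vc_lsc Φ K u hK hΦ hu).mono fun z hz => hz.1)
  have hmin : ∀ z : ℂ, 0 < z.re → vc Φ K u ζ ≤ vc Φ K u z := by
    intro z hz
    by_cases hzA : z ∈ A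
    · exact hζmin hzA
    · have h1 : vc Φ K u 1 < vc Φ K u z := by
        by_contra h
        exact hzA ⟨hz, not_lt.1 h⟩
      exact (hζA.2.trans_lt h1).le
  have hζ1 : vc Φ K u ζ < 1 := hζA.2.trans_lt hv1
  set Z : Set ℂ := {z : ℂ | 0 < z.re ∧ vc Φ K u z ≤ vc Φ K u ζ} with hZ
  have hZcl : IsClosed Z := isClosed_A Φ K u hK hΦ hu hlim _ hζ1
  have hZop : IsOpen Z := by
    rw [isOpen_iff_mem_nhds]
    intro z hz
    have hQ : DifferentiableOn ℂ (fun w => 1 - Pc K w / (Real.pi : ℂ)) {z | 0 < z.re} :=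
      (differentiableOn_const _).sub ((Pc_diff hK).div_const _)
    have hzv : vc Φ K u z = vc Φ K u ζ := le_antisymm hz.2 (hmin z hz.1)
    have h1 := loc_min Φ hdiff hd u hu (fun w => 1 - Pc K w / (Real.pi : ℂ)) hQ
      (fun w hw => by rw [qc_eq]; exact qc_nonneg K hK hw) z hz.1
      (by
        have : u (Φ z) ≤ vc Φ K u z := le_self_add
        exact ne_top_of_lt (this.trans_lt (hzv ▸ hζ1)))
      (by
        intro w hw
        simp only [qc_eq]
        have := hmin w hw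
        rw [← hzv] at this
        exact this)
    simp only [qc_eq] at h1
    have h2 : ∀ᶠ w in 𝓝 z, 0 < w.re := isOpen_hp.mem_nhds hz.1
    filter_upwards [h1, h2] with w hw1 hw2
    refine ⟨hw2, ?_⟩
    rw [← hzv]
    exact hw1
  have hclopen : IsClopen Z := ⟨hZcl, hZop⟩
  rcases isClopen_iff.1 hclopen with h | h
  · have : ζ ∈ Z := ⟨hζA.1, le_rfl⟩
    rw [h] at this
    exact this
  · have : (-1:ℂ) ∈ Z := by rw [h]; trivial
    have h3 := this.1
    simp at h3
    linarith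

end

end Pool.Agent.MP5b6e6e
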