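import Pool.Agent.MP5b6e6e.Bott

set_option autoImplicit false

namespace Pool.Agent.MP5b6e6e

open Set Filter Topology MeasureTheory Complex

noncomputable def Phi (ζ : ℂ) : ℂ := Complex.exp ζ * G (Complex.exp (-ζ))

noncomputable def fq (z : ℂ) : ℂ := z ^ 2 + 3 / 16

lemma exp_neg_norm {ζ : ℂ} (h : 0 ≤ ζ.re) : ‖Complex.exp (-ζ)‖ ≤ 1 := by
  rw [Complex.norm_exp, Complex.neg_re]
  exact Real.exp_le_one_iff.2 (by linarith)

lemma exp_neg_norm_lt {ζ : ℂ} (h : 0 < ζ.re) : ‖Complex.exp (-ζ)‖ < 1 := by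
  rw [Complex.norm_exp, Complex.neg_re]
  rw [Real.exp_lt_one_iff]
  linarith

lemma Phi_diff : DifferentiableOn ℂ Phi {z | 0 < z.re} := by
  unfold Phi
  apply DifferentiableOn.mul
  · fun_prop
  · apply G_diff.comp (by fun_prop)
    intro ζ hζ
    rw [mem_ball_zero_iff]
    exact exp_neg_norm_lt hζ

lemma Phi_cont : ContinuousOn Phi {z | 0 ≤ z.re} := by
  unfold Phi
  apply ContinuousOn.mul
  · fun_prop
  · apply G_cont.comp (by fun_prop)
    intro ζ hζ
    rw [mem_closedBall_zero_iff]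
    exact exp_neg_norm hζ

lemma Phi_two {ζ : ℂ} (h : 0 ≤ ζ.re) : Phi (2 * ζ) = fq (Phi ζ) := by
  unfold Phi fq
  have h1 := G_eq (exp_neg_norm h)
  have h2 : Complex.exp (2 * ζ) = Complex.exp ζ ^ 2 := by
    rw [← Complex.exp_nat_mul]; norm_num
  have h3 : Complex.exp (-(2 * ζ)) = Complex.exp (-ζ) ^ 2 := by
    rw [← Complex.exp_nat_mul]; norm_num
  have h4 : Complex.exp ζ * Complex.exp (-ζ) = 1 := by rw [← Complex.exp_add]; simp
  rw [h2, h3]
  have h5 : G (Complex.exp (-ζ) ^ 2) = G (Complex.exp (-ζ)) ^ 2 + (3 / 16) * Complex.exp (-ζ) ^ 2 := by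
    linear_combination -h1
  rw [h5]
  have h6 : Complex.exp ζ ^ 2 * Complex.exp (-ζ) ^ 2 = 1 := by rw [← mul_pow, h4, one_pow]
  linear_combination (3 / 16) * h6

lemma Phi_norm_ge {ζ : ℂ} (h : 0 ≤ ζ.re) : 3 / 4 * Real.exp ζ.re ≤ ‖Phi ζ‖ := by
  unfold Phi
  rw [norm_mul, Complex.norm_exp]
  have h1 := G_bound (exp_neg_norm h)
  have h2 : 3 / 4 ≤ ‖G (Complex.exp (-ζ))‖ := by
    have := norm_sub_norm_le (1:ℂ) (1 - G (Complex.exp (-ζ)))
    rw [norm_sub_rev 1 (G _)] at this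
    have h3 : (1:ℂ) - (1 - G (Complex.exp (-ζ))) = G (Complex.exp (-ζ)) := by ring
    rw [h3] at this
    simp at this
    linarith
  have := Real.exp_pos ζ.re
  nlinarith

lemma Phi_norm_le {ζ : ℂ} (h : 0 ≤ ζ.re) : ‖Phi ζ‖ ≤ 5 / 4 * Real.exp ζ.re := by
  unfold Phi
  rw [norm_mul, Complex.norm_exp]
  have h1 := G_bound (exp_neg_norm h)
  have h2 : ‖G (Complex.exp (-ζ))‖ ≤ 5 / 4 := by
    have := norm_add_le (G (Complex.exp (-ζ)) - 1) 1
    simp at this
    linarith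
  have := Real.exp_pos ζ.re
  nlinarith

lemma Phi_zero : Phi 0 = 3 / 4 := by
  unfold Phi
  simp [G_one]

/-- 2 pi i periodicity -/
lemma Phi_periodic (ζ : ℂ) (k : ℤ) : Phi (ζ + k * (2 * Real.pi * Complex.I)) = Phi ζ := by
  unfold Phi
  have h1 : Complex.exp (ζ + k * (2 * Real.pi * Complex.I)) = Complex.exp ζ :=
    Complex.exp_periodic.int_mul k ζ
  have h2 : Complex.exp (-(ζ + k * (2 * Real.pi * Complex.I))) = Complex.exp (-ζ) := by
    rw [Complex.exp_neg, h1, Complex.exp_neg]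
  rw [h1, h2]

lemma two_pow_re (n : ℕ) (ζ : ℂ) : ((2:ℂ) ^ n * ζ).re = 2 ^ n * ζ.re := by
  have : (2:ℂ) ^ n = (((2:ℝ) ^ n : ℝ) : ℂ) := by push_cast; rfl
  rw [this, Complex.re_ofReal_mul]

lemma Phi_iter (n : ℕ) {ζ : ℂ} (h : 0 ≤ ζ.re) : Phi (2 ^ n * ζ) = fq^[n] (Phi ζ) := by
  induction n with
  | zero => simp
  | succ n ih =>
    rw [Function.iterate_succ_apply', ← ih]
    have h1 : (2:ℂ) ^ (n + 1) * ζ = 2 * (2 ^ n * ζ) := by ring
    rw [h1, Phi_two]
    rw [two_pow_re]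
    positivity

/-- derivative nonzero -/
lemma Phi_deriv_two {ζ : ℂ} (h : 0 < ζ.re) : deriv Phi (2 * ζ) = Phi ζ * deriv Phi ζ := by
  have hda : ∀ z : ℂ, 0 < z.re → DifferentiableAt ℂ Phi z := fun z hz =>
    (Phi_diff z hz).differentiableAt (isOpen_hp.mem_nhds hz)
  have h2 : 0 < (2 * ζ).re := by
    have := two_pow_re 1 ζ
    simp at this
    simp
    exact h
  have e1 : HasDerivAt (fun z => Phi (2 * z)) (deriv Phi (2 * ζ) * 2) ζ := by
    have h3 := (hda (2 * ζ) h2).hasDerivAt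
    have h4 : HasDerivAt (fun z : ℂ => 2 * z) 2 ζ := by
      simpa using (hasDerivAt_id ζ).const_mul (2:ℂ)
    exact h3.comp ζ h4
  have e2 : HasDerivAt (fun z => Phi z ^ 2 + 3 / 16) (2 * Phi ζ * deriv Phi ζ) ζ := by
    have h3 := (((hda ζ h).hasDerivAt).pow 2).add_const (3 / 16 : ℂ)
    simpa using h3
  have e3 : (fun z => Phi (2 * z)) =ᶠ[𝓝 ζ] fun z => Phi z ^ 2 + 3 / 16 := by
    filter_upwards [isOpen_hp.mem_nhds h] with z hz
    exact Phi_two (le_of_lt hz)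
  have e4 := e1.congr_of_eventuallyEq e3.symm
  have e5 := e4.unique e2
  linear_combination e5 / 2

lemma Phi_deriv_ne : ∀ ζ : ℂ, 0 < ζ.re → deriv Phi ζ ≠ 0 := by
  intro ζ hζ h0
  have hall : ∀ n : ℕ, deriv Phi (2 ^ n * ζ) = 0 := by
    intro n
    induction n with
    | zero => simpa using h0
    | succ n ih =>
      have h1 : (2:ℂ) ^ (n + 1) * ζ = 2 * (2 ^ n * ζ) := by ring
      rw [h1, Phi_deriv_two, ih, mul_zero]
      rw [two_pow_re]
      positivity
  -- formula for the derivative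
  have hform : ∀ z : ℂ, 0 < z.re → deriv Phi z =
      Complex.exp z * (G (Complex.exp (-z)) - Complex.exp (-z) * deriv G (Complex.exp (-z))) := by
    intro z hz
    have h1 : HasDerivAt (fun z : ℂ => Complex.exp (-z)) (Complex.exp (-z) * (-1)) z :=
      (hasDerivAt_neg z).cexp
    have h2 : HasDerivAt G (deriv G (Complex.exp (-z))) (Complex.exp (-z)) := by
      apply DifferentiableAt.hasDerivAt
      apply (G_diff _ _).differentiableAt (Metric.isOpen_ball.mem_nhds _)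
      · rw [mem_ball_zero_iff]; exact exp_neg_norm_lt hz
      · rw [mem_ball_zero_iff]; exact exp_neg_norm_lt hz
    have h3 := (Complex.hasDerivAt_exp z).mul (h2.comp z h1)
    have h4 := h3.deriv
    have h5 : deriv Phi z = deriv ((fun y => Complex.exp y) * (G ∘ fun z => Complex.exp (-z))) z := rfl
    rw [h5, h4]
    simp only [Function.comp]
    ring
  have hs : ∀ n : ℕ, G (Complex.exp (-(2 ^ n * ζ))) -
      Complex.exp (-(2 ^ n * ζ)) * deriv G (Complex.exp (-(2 ^ n * ζ))) = 0 := by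
    intro n
    have h1 := hform (2 ^ n * ζ) (by rw [two_pow_re]; positivity)
    rw [hall n] at h1
    rcases mul_eq_zero.1 h1.symm with h | h
    · exact absurd h (Complex.exp_ne_zero _)
    · exact h
  -- limit
  have hlim : Tendsto (fun n : ℕ => Complex.exp (-((2:ℂ) ^ n * ζ))) atTop (𝓝 0) := by
    rw [tendsto_zero_iff_norm_tendsto_zero]
    have h1 : ∀ n : ℕ, ‖Complex.exp (-((2:ℂ) ^ n * ζ))‖ = Real.exp (-(2 ^ n * ζ.re)) := by
      intro n
      rw [Complex.norm_exp, Complex.neg_re, two_pow_re]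
    simp_rw [h1]
    apply Real.tendsto_exp_neg_atTop_nhds_zero.comp
    exact (tendsto_pow_atTop_atTop_of_one_lt (by norm_num : (1:ℝ) < 2)).atTop_mul_const hζ
  have h0m : (0:ℂ) ∈ Metric.ball (0:ℂ) 1 := by simp
  have hGc : ContinuousAt G 0 :=
    ((G_diff 0 h0m).differentiableAt (Metric.isOpen_ball.mem_nhds h0m)).continuousAt
  have hG'c : ContinuousAt (deriv G) 0 := by
    have h1 : AnalyticOnNhd ℂ G (Metric.ball 0 1) := G_diff.analyticOnNhd Metric.isOpen_ball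
    exact (h1 0 h0m).deriv.continuousAt
  have h2 : Tendsto (fun n : ℕ => G (Complex.exp (-(2 ^ n * ζ))) -
      Complex.exp (-(2 ^ n * ζ)) * deriv G (Complex.exp (-(2 ^ n * ζ)))) atTop
      (𝓝 (G 0 - 0 * deriv G 0)) :=
    (hGc.tendsto.comp hlim).sub (hlim.mul (hG'c.tendsto.comp hlim))
  simp_rw [hs] at h2
  have h3 := tendsto_nhds_unique tendsto_const_nhds h2
  have h4 := G_bound (s := 0) (by simp)
  have h5 : G 0 = 0 := by linear_combination -h3
  rw [h5] at h4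
  norm_num at h4

/-- the domain -/
noncomputable def Om : Set ℂ := Phi '' {z | 0 < z.re}

lemma Om_open : IsOpen Om := by
  rw [isOpen_iff_mem_nhds]
  rintro w ⟨ζ, hζ, rfl⟩
  obtain ⟨L, ρ, hρ, -, hLm, -, -⟩ := loc_inv Phi Phi_diff Phi_deriv_ne ζ hζ
  filter_upwards [Metric.ball_mem_nhds (Phi ζ) hρ] with w hw
  exact ⟨L w, (hLm w hw).1, (hLm w hw).2⟩

lemma Om_conn : IsConnected Om := by
  apply IsConnected.image
  · refine ⟨⟨1, by simp⟩, ?_⟩
    exact (convex_halfSpace_re_gt 0).isPreconnected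
  · exact Phi_diff.continuousOn

lemma Om_forward {z : ℂ} (hz : z ∈ Om) : fq z ∈ Om := by
  obtain ⟨ζ, hζ, rfl⟩ := hz
  refine ⟨2 * ζ, ?_, Phi_two (le_of_lt hζ)⟩
  have := two_pow_re 1 ζ
  show 0 < (2 * ζ).re
  simp
  exact hζ

lemma Om_forward_iter {z : ℂ} (hz : z ∈ Om) (n : ℕ) : fq^[n] z ∈ Om := by
  induction n with
  | zero => simpa using hz
  | succ n ih => rw [Function.iterate_succ_apply']; exact Om_forward ih

lemma Om_norm {z : ℂ} (hz : z ∈ Om) : 3 / 4 < ‖z‖ := by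
  obtain ⟨ζ, hζ, rfl⟩ := hz
  have h1 := Phi_norm_ge (le_of_lt hζ)
  have h2 : 1 < Real.exp ζ.re := Real.one_lt_exp_iff.2 hζ
  linarith

lemma not_Om {z : ℂ} (n : ℕ) (hz : ‖fq^[n] z‖ ≤ 3 / 4) : z ∉ Om := by
  intro h
  have := Om_norm (Om_forward_iter h n)
  linarith

lemma bd_not_Om (t : ℝ) : Phi ((t:ℂ) * Complex.I) ∉ Om := by
  rintro ⟨ζ, hζ, he⟩
  have hζ' : 0 < ζ.re := hζ
  have h1 : ∀ n : ℕ, 3 / 4 * Real.exp (2 ^ n * ζ.re) ≤ 5 / 4 := by
    intro n
    have h2 := Phi_iter n hζ'.le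
    have h3 := Phi_iter n (ζ := (t:ℂ) * Complex.I) (by simp)
    rw [he, ← h3] at h2
    have h4 := Phi_norm_ge (ζ := 2 ^ n * ζ) (by rw [two_pow_re]; positivity)
    have h5 := Phi_norm_le (ζ := 2 ^ n * ((t:ℂ) * Complex.I)) (by rw [two_pow_re]; simp)
    rw [two_pow_re] at h4 h5
    rw [h2] at h4
    simp at h5
    linarith
  have h2 : Tendsto (fun n : ℕ => Real.exp ((2:ℝ) ^ n * ζ.re)) atTop atTop :=
    Real.tendsto_exp_atTop.comp
      ((tendsto_pow_atTop_atTop_of_one_lt (by norm_num : (1:ℝ) < 2)).atTop_mul_const hζ')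
  obtain ⟨n, hn⟩ := (h2.eventually_gt_atTop 2).exists
  have := h1 n
  linarith

lemma bd_frontier (t : ℝ) : Phi ((t:ℂ) * Complex.I) ∈ frontier Om := by
  rw [frontier, Om_open.interior_eq]
  refine ⟨?_, bd_not_Om t⟩
  have h1 : ContinuousWithinAt Phi {z | 0 < z.re} ((t:ℂ) * Complex.I) :=
    (Phi_cont ((t:ℂ) * Complex.I) (by simp)).mono fun w (hw : 0 < w.re) => (le_of_lt hw : 0 ≤ w.re)
  have h2 : ((t:ℂ) * Complex.I) ∈ closure {z : ℂ | 0 < z.re} := by
    have : {z : ℂ | 0 < z.re} = Complex.re ⁻¹' (Ioi 0) := rfl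
    rw [this, Complex.closure_preimage_re]
    simp
  exact h1.mem_closure_image h2

/-- the nonpolarity witness -/
noncomputable def uw (z : ℂ) : ENNReal := ENNReal.ofReal (2 + z⁻¹).re

lemma uw_sup : SupH Om uw := by
  have hne : ∀ z ∈ Om, z ≠ 0 := by
    intro z hz h
    have := Om_norm hz
    rw [h] at this
    norm_num at this
  have hd : DifferentiableOn ℂ (fun z : ℂ => 2 + z⁻¹) Om := by
    apply DifferentiableOn.add (differentiableOn_const _)
    exact differentiableOn_inv.mono fun z hz => hne z hz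
  constructor
  · apply ContinuousOn.lowerSemicontinuousOn
    exact ENNReal.continuous_ofReal.comp_continuousOn
      (Complex.continuous_re.comp_continuousOn hd.continuousOn)
  · intro a r hr hsub
    apply le_of_eq
    simp only [circ_eq]
    have hcl : DiffContOnCl ℂ (fun z : ℂ => 2 + z⁻¹) (Metric.ball a r) := by
      refine ⟨hd.mono (Metric.ball_subset_closedBall.trans hsub), ?_⟩
      rw [closure_ball a hr.ne']
      exact hd.continuousOn.mono hsub
    apply mean_ofReal (fun z : ℂ => 2 + z⁻¹) a r hr hcl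
    intro z hz
    have h1 := Om_norm (hsub hz)
    have h2 : ‖z⁻¹‖ ≤ 4 / 3 := by
      rw [norm_inv, inv_le_comm₀ (by linarith) (by norm_num)]
      linarith
    have h3 := (abs_le.1 ((Complex.abs_re_le_norm z⁻¹).trans h2)).1
    have h4 : ((2:ℂ) + z⁻¹).re = 2 + (z⁻¹).re := by rw [Complex.add_re]; norm_num
    show 0 ≤ ((2:ℂ) + z⁻¹).re
    rw [h4]
    linarith

lemma uw_nonconst : ∃ z ∈ Om, ∃ w ∈ Om, uw z < uw w ∧ uw w < ⊤ := by
  have hmem : ∀ x : ℝ, 0 < x → Phi (x:ℂ) ∈ Om := fun x hx => ⟨x, by simpa using hx, rfl⟩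
  -- real part of the inverse is positive at real points
  have hpos : 0 < ((Phi ((1:ℝ):ℂ))⁻¹).re := by
    rw [Complex.inv_re]
    have h1 : 0 < (Phi ((1:ℝ):ℂ)).re := by
      unfold Phi
      have h2 : Complex.exp ((1:ℝ):ℂ) = ((Real.exp 1 : ℝ) : ℂ) := by
        rw [Complex.ofReal_exp]
      rw [h2, Complex.re_ofReal_mul]
      apply mul_pos (Real.exp_pos _)
      have h3 := G_bound (exp_neg_norm (ζ := ((1:ℝ):ℂ)) (by simp))
      have h4 := (abs_le.1 ((Complex.abs_re_le_norm _).trans h3)).1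
      simp only [Complex.sub_re, Complex.one_re] at h4
      linarith
    apply div_pos h1
    rw [Complex.normSq_pos]
    intro h
    rw [h] at h1
    simp at h1
  have hlim : Tendsto (fun n : ℕ => ((Phi (((n:ℝ) : ℝ):ℂ))⁻¹).re) atTop (𝓝 0) := by
    apply squeeze_zero_norm (a := fun n : ℕ => 4 / 3 * Real.exp (-(n:ℝ)))
    · intro n
      have h1 := Phi_norm_ge (ζ := ((n:ℝ):ℂ)) (by simp)
      rw [Complex.ofReal_re] at h1
      have h2 : ‖((Phi (((n:ℝ) : ℝ):ℂ))⁻¹).re‖ ≤ ‖(Phi (((n:ℝ) : ℝ):ℂ))⁻¹‖ := Complex.abs_re_le_norm _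
      refine h2.trans ?_
      rw [norm_inv, Real.exp_neg]
      have h3 := Real.exp_pos (n:ℝ)
      rw [inv_le_comm₀ (by linarith) (by positivity)]
      rw [mul_inv, inv_inv]
      refine le_trans (le_of_eq ?_) h1
      norm_num
    · have h2 := Real.tendsto_exp_neg_atTop_nhds_zero.comp (tendsto_natCast_atTop_atTop (R := ℝ))
      simpa using h2.const_mul (4 / 3 : ℝ)
  obtain ⟨n, hn1, hn2⟩ := ((hlim.eventually (gt_mem_nhds hpos)).and (eventually_gt_atTop 0)).exists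
  refine ⟨Phi ((n:ℝ):ℂ), hmem n (by exact_mod_cast hn2), Phi ((1:ℝ):ℂ), hmem 1 one_pos, ?_,
    ENNReal.ofReal_lt_top⟩
  unfold uw
  rw [ENNReal.ofReal_lt_ofReal_iff]
  · simp only [Complex.add_re]
    linarith
  · simp only [Complex.add_re]
    norm_num
    norm_num at hpos
    linarith

end Pool.Agent.MP5b6e6e
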