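import Pool.Agent.MP5b6e6e.Phi

set_option autoImplicit false

namespace Pool.Agent.MP5b6e6e

open Set Filter Topology MeasureTheory Complex

/-- half disc: algebraic core -/
lemma half_core {x y x1 y1 x2 y2 : ℝ} (hx : x ≤ 0) (hn : x ^ 2 + y ^ 2 ≤ (1 / 40) ^ 2)
    (hx1 : x1 = 3 / 2 * x + x ^ 2 - y ^ 2) (hy1 : y1 = 3 / 2 * y + 2 * x * y)
    (hx2 : x2 = 3 / 2 * x1 + x1 ^ 2 - y1 ^ 2) (hy2 : y2 = 3 / 2 * y1 + 2 * x1 * y1) :
    (3 / 4 + x2) ^ 2 + y2 ^ 2 ≤ (3 / 4) ^ 2 := by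
  obtain ⟨s, hs⟩ : ∃ s, s = -x := ⟨_, rfl⟩
  obtain ⟨Y, hY⟩ : ∃ Y, Y = y ^ 2 := ⟨_, rfl⟩
  have hxs : x = -s := by linarith
  have hs0 : 0 ≤ s := by linarith
  have hY0 : 0 ≤ Y := by rw [hY]; positivity
  have hsY : s ^ 2 + Y ≤ 1 / 1600 := by
    rw [hs, hY]
    have : (-x) ^ 2 = x ^ 2 := by ring
    rw [this]
    linarith
  have hs1 : s ≤ 1 / 40 := by
    apply le_of_sq_le_sq _ (by norm_num)
    linarith
  have hY1 : Y ≤ 1 / 1600 := by linarith [sq_nonneg s]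
  have hss : s ^ 2 ≤ 1 / 40 * s := by
    have := mul_nonneg hs0 (sub_nonneg.2 hs1)
    linarith [this, (by ring : s * (1 / 40 - s) = 1 / 40 * s - s ^ 2)]
  obtain ⟨A, hA⟩ : ∃ A, A = (3 / 2 - 2 * s) ^ 2 := ⟨_, rfl⟩
  have hA0 : 0 ≤ A := by rw [hA]; positivity
  have hA1 : A ≤ 9 / 4 := by
    have : (3 / 2 - 2 * s) ^ 2 = 9 / 4 - 6 * s + 4 * s ^ 2 := by ring
    rw [hA, this]; linarith
  have hy1sq : y1 ^ 2 = A * Y := by rw [hy1, hA, hY, hxs]; ring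
  obtain ⟨p, hp⟩ : ∃ p, p = 3 / 2 * s - s ^ 2 + Y := ⟨_, rfl⟩
  have hx1p : x1 = -p := by rw [hx1, hp, hxs, hY]; ring
  have hpY : Y ≤ p := by rw [hp]; linarith
  have hp0 : 0 ≤ p := by linarith
  have hp1 : p ≤ 3 / 2 * s + Y := by rw [hp]; linarith [sq_nonneg s]
  have hAY0 : 0 ≤ A * Y := mul_nonneg hA0 hY0
  have hAY : A * Y ≤ 9 / 4 * Y := mul_le_mul_of_nonneg_right hA1 hY0
  have hps : p ≤ 1 / 20 := by linarith
  have hpp : p ^ 2 ≤ 1 / 20 * p := by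
    have := mul_nonneg hp0 (sub_nonneg.2 hps)
    linarith [this, (by ring : p * (1 / 20 - p) = 1 / 20 * p - p ^ 2)]
  obtain ⟨q, hq⟩ : ∃ q, q = 3 / 2 * p - p ^ 2 + A * Y := ⟨_, rfl⟩
  have hx2q : x2 = -q := by rw [hx2, hy1sq, hx1p, hq]; ring
  have hq0 : 0 ≤ q := by rw [hq]; linarith
  have hq2 : q ≤ 1 / 8 := by rw [hq]; linarith [sq_nonneg p]
  have hqq : q ^ 2 ≤ 1 / 8 * q := by
    have := mul_nonneg hq0 (sub_nonneg.2 hq2)
    linarith [this, (by ring : q * (1 / 8 - q) = 1 / 8 * q - q ^ 2)]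
  have hy2sq : y2 ^ 2 = A * Y * (3 / 2 - 2 * p) ^ 2 := by
    have : y2 = y1 * (3 / 2 - 2 * p) := by rw [hy2, hx1p]; ring
    rw [this, mul_pow, hy1sq]
  have h1 : (3 / 2 - 2 * p) ^ 2 ≤ 9 / 4 := by
    have : (3 / 2 - 2 * p) ^ 2 = 9 / 4 - 6 * p + 4 * p ^ 2 := by ring
    rw [this]; linarith
  have h2 : A * Y * (3 / 2 - 2 * p) ^ 2 ≤ A * Y * (9 / 4) := mul_le_mul_of_nonneg_left h1 hAY0
  rw [hy2sq, hx2q]
  have h3 : (3 / 4 + -q) ^ 2 = (3 / 4) ^ 2 - 3 / 2 * q + q ^ 2 := by ring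
  rw [h3]
  linarith

lemma fq_beta (h : ℂ) : fq (3 / 4 + h) = 3 / 4 + (3 / 2 * h + h ^ 2) := by
  unfold fq; ring

lemma T_re (h : ℂ) : (3 / 2 * h + h ^ 2).re = 3 / 2 * h.re + h.re ^ 2 - h.im ^ 2 := by
  simp [pow_two]
  ring

lemma T_im (h : ℂ) : (3 / 2 * h + h ^ 2).im = 3 / 2 * h.im + 2 * h.re * h.im := by
  simp [pow_two]
  ring

lemma normsq (h : ℂ) : ‖h‖ ^ 2 = h.re ^ 2 + h.im ^ 2 := by
  rw [← Complex.normSq_eq_norm_sq, Complex.normSq_apply]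
  ring

lemma half_disc {h : ℂ} (hre : h.re ≤ 0) (hn : ‖h‖ ≤ 1 / 40) : ‖fq^[2] (3 / 4 + h)‖ ≤ 3 / 4 := by
  have e : fq^[2] (3 / 4 + h) = 3 / 4 + (3 / 2 * (3 / 2 * h + h ^ 2) + (3 / 2 * h + h ^ 2) ^ 2) := by
    show fq (fq (3 / 4 + h)) = _
    rw [fq_beta, fq_beta]
  rw [e]
  apply le_of_sq_le_sq _ (by norm_num)
  rw [normsq]
  have hn2 : h.re ^ 2 + h.im ^ 2 ≤ (1 / 40) ^ 2 := by
    rw [← normsq]; gcongr
  have := half_core hre hn2 rfl rfl rfl rfl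
  simp only [Complex.add_re, Complex.add_im] at this ⊢
  have r1 := T_re h
  have i1 := T_im h
  have r2 := T_re (3 / 2 * h + h ^ 2)
  have i2 := T_im (3 / 2 * h + h ^ 2)
  rw [r1, i1] at r2 i2
  simp only [Complex.add_re, Complex.add_im] at r2 i2
  rw [r2, i2]
  have e1 : (3 / 4 : ℂ).re = 3 / 4 := by norm_num
  have e2 : (3 / 4 : ℂ).im = 0 := by norm_num
  rw [e1, e2, zero_add]
  exact this

lemma sector_ind (n : ℕ) : ∀ h : ℂ, h.re ≤ 1 / 400 * |h.im| → ‖h‖ ≤ 1 / 80 →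
    1 / 160 ≤ (7 / 5 : ℝ) ^ n * ‖h‖ → ∃ m, ‖fq^[m] (3 / 4 + h)‖ ≤ 3 / 4 := by
  induction n with
  | zero =>
    intro h hs hn hl
    rw [pow_zero, one_mul] at hl
    by_cases hre : h.re ≤ 0
    · exact ⟨2, half_disc hre (by linarith)⟩
    push Not at hre
    have hy : 1 / 200 ≤ |h.im| := by
      have := Complex.norm_le_abs_re_add_abs_im h
      rw [abs_of_pos hre] at this
      linarith
    have hr80 : h.re ≤ 1 / 80 := (Complex.re_le_norm h).trans hn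
    have h1re : (3 / 2 * h + h ^ 2).re ≤ 0 := by
      rw [T_re, ← sq_abs h.im]
      nlinarith
    have h1n : ‖3 / 2 * h + h ^ 2‖ ≤ 1 / 40 := by
      have e : 3 / 2 * h + h ^ 2 = h * (3 / 2 + h) := by ring
      rw [e, norm_mul]
      have h2 : ‖3 / 2 + h‖ ≤ 3 / 2 + ‖h‖ := by
        have := norm_add_le (3 / 2 : ℂ) h
        simpa using this
      have h3 := norm_nonneg h
      nlinarith
    refine ⟨3, ?_⟩
    show ‖fq^[2] (fq (3 / 4 + h))‖ ≤ 3 / 4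
    rw [fq_beta]
    exact half_disc h1re h1n
  | succ n ih =>
    intro h hs hn hl
    by_cases hre : h.re ≤ 0
    · exact ⟨2, half_disc hre (by linarith)⟩
    push Not at hre
    have hr80 : h.re ≤ 1 / 80 := (Complex.re_le_norm h).trans hn
    have e : 3 / 2 * h + h ^ 2 = h * (3 / 2 + h) := by ring
    have h2 : ‖3 / 2 + h‖ ≤ 3 / 2 + ‖h‖ := by
      have := norm_add_le (3 / 2 : ℂ) h
      simpa using this
    have h2' : 3 / 2 - ‖h‖ ≤ ‖3 / 2 + h‖ := by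
      have := norm_sub_norm_le (3 / 2 : ℂ) (-h)
      rw [sub_neg_eq_add, norm_neg] at this
      simpa using this
    have h3 := norm_nonneg h
    by_cases hbig : 1 / 160 ≤ ‖h‖
    · have hy : 1 / 200 ≤ |h.im| := by
        have := Complex.norm_le_abs_re_add_abs_im h
        rw [abs_of_pos hre] at this
        linarith
      have h1re : (3 / 2 * h + h ^ 2).re ≤ 0 := by
        rw [T_re, ← sq_abs h.im]
        nlinarith
      have h1n : ‖3 / 2 * h + h ^ 2‖ ≤ 1 / 40 := by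
        rw [e, norm_mul]
        nlinarith
      refine ⟨3, ?_⟩
      show ‖fq^[2] (fq (3 / 4 + h))‖ ≤ 3 / 4
      rw [fq_beta]
      exact half_disc h1re h1n
    · push Not at hbig
      have hs1 : (3 / 2 * h + h ^ 2).re ≤ 1 / 400 * |(3 / 2 * h + h ^ 2).im| := by
        rw [T_re, T_im]
        have e2 : 3 / 2 * h.im + 2 * h.re * h.im = (3 / 2 + 2 * h.re) * h.im := by ring
        rw [e2, abs_mul, abs_of_pos (by linarith : (0:ℝ) < 3 / 2 + 2 * h.re), ← sq_abs h.im]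
        have h5 : 0 ≤ |h.im| := abs_nonneg _
        have h6 : h.re ^ 2 ≤ |h.im| ^ 2 := by
          apply pow_le_pow_left₀ hre.le
          linarith
        have h7 : 0 ≤ h.re * |h.im| := mul_nonneg hre.le h5
        nlinarith
      have h1n : ‖3 / 2 * h + h ^ 2‖ ≤ 1 / 80 := by
        rw [e, norm_mul]
        nlinarith
      have h1l : 1 / 160 ≤ (7 / 5 : ℝ) ^ n * ‖3 / 2 * h + h ^ 2‖ := by
        have h5 : 7 / 5 * ‖h‖ ≤ ‖3 / 2 * h + h ^ 2‖ := by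
          rw [e, norm_mul]
          nlinarith
        calc 1 / 160 ≤ (7 / 5 : ℝ) ^ (n + 1) * ‖h‖ := hl
          _ = (7 / 5 : ℝ) ^ n * (7 / 5 * ‖h‖) := by ring
          _ ≤ _ := by gcongr
      obtain ⟨m, hm⟩ := ih _ hs1 h1n h1l
      refine ⟨m + 1, ?_⟩
      show ‖fq^[m] (fq (3 / 4 + h))‖ ≤ 3 / 4
      rw [fq_beta]
      exact hm

lemma sector {h : ℂ} (hs : h.re ≤ 1 / 400 * |h.im|) (hn : ‖h‖ ≤ 1 / 80) : 3 / 4 + h ∉ Om := by
  by_cases h0 : h = 0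
  · subst h0
    apply not_Om 0
    simp
  · have hpos : 0 < ‖h‖ := norm_pos_iff.2 h0
    obtain ⟨n, hn'⟩ := pow_unbounded_of_one_lt ((1 / 160) / ‖h‖) (by norm_num : (1:ℝ) < 7 / 5)
    rw [div_lt_iff₀ hpos] at hn'
    obtain ⟨m, hm⟩ := sector_ind n h hs hn hn'.le
    exact not_Om m hm

/-- multiplier -/
noncomputable def lam (z : ℂ) : ℕ → ℂ
  | 0 => 1
  | n + 1 => 2 * fq^[n] z * lam z n

lemma lam_norm {z : ℂ} (hz : ∀ n, 3 / 4 ≤ ‖fq^[n] z‖) (n : ℕ) : (3 / 2 : ℝ) ^ n ≤ ‖lam z n‖ := by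
  induction n with
  | zero => simp [lam]
  | succ n ih =>
    have h1 : ‖lam z (n + 1)‖ = 2 * ‖fq^[n] z‖ * ‖lam z n‖ := by
      show ‖2 * fq^[n] z * lam z n‖ = _
      rw [norm_mul, norm_mul]; norm_num
    rw [h1, pow_succ]
    have h2 := hz n
    have h3 : (0:ℝ) ≤ (3 / 2) ^ n := by positivity
    nlinarith

lemma distortion {z : ℂ} (hz : ∀ n, 3 / 4 ≤ ‖fq^[n] z‖) (n : ℕ) :
    ∀ h : ℂ, ‖lam z n * h‖ ≤ 1 / 6 →
      ‖fq^[n] (z + h) - fq^[n] z - lam z n * h‖ ≤ 3 * ‖lam z n * h‖ ^ 2 := by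
  induction n with
  | zero =>
    intro h _
    simp [lam]
  | succ n ih =>
    intro h hh
    set q : ℝ := ‖lam z n * h‖ with hq
    set zn := fq^[n] z with hzn
    set μ : ℝ := 2 * ‖zn‖ with hμ
    have hμ1 : 3 / 2 ≤ μ := by have := hz n; rw [hμ]; linarith
    have hq0 : 0 ≤ q := norm_nonneg _
    have hq' : ‖lam z (n + 1) * h‖ = μ * q := by
      show ‖2 * zn * lam z n * h‖ = _
      have e0 : 2 * zn * lam z n * h = 2 * zn * (lam z n * h) := by ring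
      have e1 : ‖(2:ℂ)‖ = 2 := by norm_num
      rw [e0, norm_mul, norm_mul, e1]
    rw [hq'] at hh ⊢
    have hq9 : q ≤ 1 / 6 := by nlinarith
    have ih' := ih h hq9
    set hn : ℂ := fq^[n] (z + h) - zn with hhn
    have hnn : ‖hn‖ ≤ q + 3 * q ^ 2 := by
      have := norm_add_le (hn - lam z n * h) (lam z n * h)
      rw [sub_add_cancel] at this
      linarith
    have e : fq^[n + 1] (z + h) - fq^[n + 1] z - lam z (n + 1) * h =
        2 * zn * (hn - lam z n * h) + hn ^ 2 := by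
      rw [Function.iterate_succ_apply', Function.iterate_succ_apply']
      have e1 : fq^[n] (z + h) = zn + hn := by rw [hhn]; ring
      rw [e1]
      show fq (zn + hn) - fq zn - (2 * zn * lam z n) * h = _
      unfold fq
      ring
    rw [e]
    have h1 : ‖2 * zn * (hn - lam z n * h) + hn ^ 2‖ ≤ μ * (3 * q ^ 2) + (q + 3 * q ^ 2) ^ 2 := by
      refine (norm_add_le _ _).trans ?_
      rw [norm_mul, norm_pow]
      have e2 : ‖2 * zn‖ = μ := by rw [norm_mul]; norm_num [hμ]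
      rw [e2]
      gcongr
    refine h1.trans ?_
    have h2 : (q + 3 * q ^ 2) ^ 2 = q ^ 2 * (1 + 3 * q) ^ 2 := by ring
    have h3 : (1 + 3 * q) ^ 2 ≤ 9 / 4 := by nlinarith
    have h4 : 9 / 4 ≤ 3 * μ * (μ - 1) := by nlinarith
    have h5 : q ^ 2 * (1 + 3 * q) ^ 2 ≤ q ^ 2 * (3 * μ * (μ - 1)) := by
      apply mul_le_mul_of_nonneg_left (h3.trans h4) (by positivity)
    nlinarith

end Pool.Agent.MP5b6e6e
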